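import Pool.Agent.MP_5499e5_ag.W.Defs
set_option autoImplicit false
namespace Pool.Agent.MP_5499e5_ag.W
open Filter MvPolynomial

theorem low_Num (n k B : ℕ) (hn : 1 ≤ n) (hk : k ≤ B) :
    (B + 1) * k ^ (n + 1) ≤ B * ((n + 1).factorial * (k + n).choose (n + 1)) := by
  have h1 : k.ascFactorial (n + 1) = (n + 1).factorial * (k + n).choose (n + 1) := by
    rw [Nat.ascFactorial_eq_factorial_mul_choose']
    congr 2
  have h2 : k ^ n ≤ k.ascFactorial n := Nat.pow_succ_le_ascFactorial k n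
  rw [← h1, Nat.ascFactorial_succ]
  have h3 : (B + 1) * k ≤ B * (k + n) := by nlinarith
  calc (B + 1) * k ^ (n + 1) = ((B + 1) * k) * k ^ n := by ring
    _ ≤ (B * (k + n)) * k.ascFactorial n := Nat.mul_le_mul h3 h2
    _ = _ := by ring

theorem up_Num (n d : ℕ) :
    (n + 1).factorial * (d + (n + 1)).choose (n + 1) ≤ (d + (n + 1)) ^ (n + 1) := by
  rw [← Nat.ascFactorial_eq_factorial_mul_choose]
  exact Nat.ascFactorial_le_pow_add d (n + 1)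

theorem main_Num (n B : ℕ) (hn : 1 ≤ n) : ∃ c : ℝ, 0 ≤ c ∧
    ∀ (ι : Type) (T : Finset ι) (k : ι → ℕ) (d : ℕ), 1 ≤ d → (∀ i ∈ T, k i ≤ B) →
    ∑ i ∈ T, (k i + n).choose (n + 1) ≤
      (d + (n + 1)).choose (n + 1) + (B + n).choose (n + 1) * ((n + 1) * B * (d + 1) ^ n) →
    ((B : ℝ) + 1) * ∑ i ∈ T, (k i : ℝ) ^ (n + 1) ≤ B * ((d : ℝ) ^ (n + 1) + c * (d : ℝ) ^ n) := by
  refine ⟨((n : ℝ) + 1) * (n + 1) * (n + 2) ^ n +
    ((n + 1).factorial : ℝ) * ((B + n).choose (n + 1) : ℝ) * ((n + 1) * B * 2 ^ n),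
    by positivity, ?_⟩
  intro ι T k d hd hk h
  have h1 : (B + 1) * ∑ i ∈ T, k i ^ (n + 1) ≤ B * ((d + (n + 1)) ^ (n + 1) +
      (n + 1).factorial * ((B + n).choose (n + 1) * ((n + 1) * B * (d + 1) ^ n))) := by
    calc (B + 1) * ∑ i ∈ T, k i ^ (n + 1) = ∑ i ∈ T, (B + 1) * k i ^ (n + 1) := by
          rw [Finset.mul_sum]
      _ ≤ ∑ i ∈ T, B * ((n + 1).factorial * (k i + n).choose (n + 1)) :=
          Finset.sum_le_sum fun i hi => low_Num n (k i) B hn (hk i hi)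
      _ = B * ((n + 1).factorial * ∑ i ∈ T, (k i + n).choose (n + 1)) := by
          rw [Finset.mul_sum, Finset.mul_sum]
      _ ≤ B * ((n + 1).factorial * ((d + (n + 1)).choose (n + 1) +
          (B + n).choose (n + 1) * ((n + 1) * B * (d + 1) ^ n))) := by gcongr
      _ ≤ _ := by
          rw [mul_add]
          gcongr
          exact up_Num n d
  have h2 : ((B : ℝ) + 1) * ∑ i ∈ T, (k i : ℝ) ^ (n + 1) ≤ B * (((d : ℝ) + (n + 1)) ^ (n + 1) +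
      ((n + 1).factorial : ℝ) * (((B + n).choose (n + 1) : ℝ) *
        ((n + 1) * B * ((d : ℝ) + 1) ^ n))) := by exact_mod_cast h1
  have hd' : (1 : ℝ) ≤ d := by exact_mod_cast hd
  have hn0 : (0 : ℝ) ≤ n := by positivity
  have h3 := pow_succ_add_le (d : ℝ) ((n : ℝ) + 1) (by positivity) (by positivity) n
  have h4 : ((d : ℝ) + (n + 1)) ^ n ≤ (n + 2) ^ n * (d : ℝ) ^ n := by
    rw [← mul_pow]
    gcongr
    nlinarith
  have h5 : ((d : ℝ) + 1) ^ n ≤ 2 ^ n * (d : ℝ) ^ n := by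
    rw [← mul_pow]
    gcongr
    linarith
  refine h2.trans (mul_le_mul_of_nonneg_left ?_ (by positivity))
  calc ((d : ℝ) + (n + 1)) ^ (n + 1) +
      ((n + 1).factorial : ℝ) * (((B + n).choose (n + 1) : ℝ) *
        ((n + 1) * B * ((d : ℝ) + 1) ^ n))
      ≤ ((d : ℝ) ^ (n + 1) + (n + 1) * (n + 1) * ((n + 2) ^ n * (d : ℝ) ^ n)) +
        ((n + 1).factorial : ℝ) * (((B + n).choose (n + 1) : ℝ) *
        ((n + 1) * B * (2 ^ n * (d : ℝ) ^ n))) := by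
        refine add_le_add (h3.trans ?_) ?_
        · gcongr
        · gcongr
    _ = _ := by ring

theorem s_num : S_num := by
  intro n B hn
  obtain ⟨c, hc, H⟩ := main_Num n B hn
  have hn1 : (1 : ℝ) ≤ n := by exact_mod_cast hn
  have hB0 : (0 : ℝ) ≤ B := by positivity
  set ε : ℝ := 1 / (2 * ((B : ℝ) + 1) * (n + 1)) with hε
  have hε0 : 0 < ε := by positivity
  have hε1 : ε ≤ 1 / 2 := by
    rw [hε]
    apply one_div_le_one_div_of_le (by norm_num)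
    nlinarith [mul_nonneg hB0 (by linarith : (0 : ℝ) ≤ n)]
  have hc3 : 0 ≤ (2 * B * c) ^ n * (1 + c) := by positivity
  refine ⟨ε, 1 + 2 * ((2 * B * c) ^ n * (1 + c)), hε0, by linarith, by linarith, ?_⟩
  intro ι T k d τ hτ hT hd hk h
  have hS := H ι T k d hd hk h
  have hd' : (1 : ℝ) ≤ d := by exact_mod_cast hd
  have hτ1 : 1 ≤ τ := by linarith
  have hS0 : 0 ≤ ∑ i ∈ T, (k i : ℝ) ^ (n + 1) := Finset.sum_nonneg fun i _ => by positivity
  rcases le_or_gt (2 * B * c) (d : ℝ) with hcase | hcase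
  · have h1 : (B : ℝ) * (c * (d : ℝ) ^ n) ≤ (d : ℝ) ^ (n + 1) / 2 := by
      have : (2 * B * c) * (d : ℝ) ^ n ≤ d * (d : ℝ) ^ n := by gcongr
      rw [pow_succ]
      linarith
    have h2 : 1 + ((n + 1 : ℕ) : ℝ) * (-ε) ≤ (1 + -ε) ^ (n + 1) :=
      one_add_mul_le_pow (by linarith) (n + 1)
    have h3 : ((B : ℝ) + 1) * (1 + ((n + 1 : ℕ) : ℝ) * (-ε)) = B + 1 / 2 := by
      rw [hε]
      push_cast
      field_simp
      ring
    have h4 : ∑ i ∈ T, (k i : ℝ) ^ (n + 1) ≤ (1 - ε) ^ (n + 1) * (d : ℝ) ^ (n + 1) := by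
      have h5 : ((B : ℝ) + 1) * ∑ i ∈ T, (k i : ℝ) ^ (n + 1) ≤
          ((B : ℝ) + 1) * ((1 - ε) ^ (n + 1) * (d : ℝ) ^ (n + 1)) := by
        calc ((B : ℝ) + 1) * ∑ i ∈ T, (k i : ℝ) ^ (n + 1)
            ≤ (B + 1 / 2) * (d : ℝ) ^ (n + 1) := by linarith
          _ = ((B : ℝ) + 1) * ((1 + ((n + 1 : ℕ) : ℝ) * (-ε)) * (d : ℝ) ^ (n + 1)) := by
              rw [← mul_assoc, h3]
          _ ≤ _ := by
              rw [sub_eq_add_neg]
              gcongr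
      exact le_of_mul_le_mul_left h5 (by positivity)
    have h6 : (∑ i ∈ T, (k i : ℝ)) ^ (n + 1) ≤ (T.card : ℝ) ^ n * ∑ i ∈ T, (k i : ℝ) ^ (n + 1) :=
      pow_sum_le_card_mul_sum_pow (fun i _ => by positivity) n
    have h7 : (∑ i ∈ T, (k i : ℝ)) ^ (n + 1) ≤ ((1 - ε) * τ ^ n * d) ^ (n + 1) := by
      calc (∑ i ∈ T, (k i : ℝ)) ^ (n + 1) ≤ (T.card : ℝ) ^ n * ∑ i ∈ T, (k i : ℝ) ^ (n + 1) := h6
        _ ≤ (τ ^ (n + 1)) ^ n * ((1 - ε) ^ (n + 1) * (d : ℝ) ^ (n + 1)) := by gcongr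
        _ = _ := by
            rw [mul_pow, mul_pow, ← pow_mul, ← pow_mul, mul_comm (n + 1) n]
            ring
    have h8 : 0 ≤ (1 - ε) * τ ^ n * d := by
      have : 0 ≤ 1 - ε := by linarith
      positivity
    exact le_of_pow_le_pow_left₀ (Nat.succ_ne_zero n) h8 h7
  · have h1 : ∑ i ∈ T, (k i : ℝ) ≤ ∑ i ∈ T, (k i : ℝ) ^ (n + 1) := by
      refine Finset.sum_le_sum fun i _ => ?_
      have : k i ≤ k i ^ (n + 1) := Nat.le_self_pow (Nat.succ_ne_zero n) _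
      exact_mod_cast this
    have hX : 0 ≤ (d : ℝ) ^ (n + 1) + c * (d : ℝ) ^ n := by positivity
    have h2 : ∑ i ∈ T, (k i : ℝ) ^ (n + 1) ≤ (d : ℝ) ^ (n + 1) + c * (d : ℝ) ^ n := by
      have h5 : ((B : ℝ) + 1) * ∑ i ∈ T, (k i : ℝ) ^ (n + 1) ≤
          ((B : ℝ) + 1) * ((d : ℝ) ^ (n + 1) + c * (d : ℝ) ^ n) := by nlinarith
      exact le_of_mul_le_mul_left h5 (by positivity)
    have h3 : (d : ℝ) ^ n ≤ (2 * B * c) ^ n := by gcongr
    have h4 : (d : ℝ) ^ (n + 1) + c * (d : ℝ) ^ n ≤ (2 * B * c) ^ n * (1 + c) * d := by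
      have h5 : (d : ℝ) + c ≤ (1 + c) * d := by nlinarith
      calc (d : ℝ) ^ (n + 1) + c * (d : ℝ) ^ n = (d : ℝ) ^ n * (d + c) := by ring
        _ ≤ (2 * B * c) ^ n * ((1 + c) * d) := by gcongr
        _ = _ := by ring
    have h6 : τ ≤ τ ^ n := le_self_pow₀ hτ1 (by omega)
    have h7 : (2 * B * c) ^ n * (1 + c) ≤ (1 - ε) * τ ^ n := by
      have h8 : 1 / 2 * τ ≤ (1 - ε) * τ ^ n := by
        apply mul_le_mul (by linarith) h6 (by linarith) (by linarith)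
      linarith
    calc ∑ i ∈ T, (k i : ℝ) ≤ (2 * B * c) ^ n * (1 + c) * d := h1.trans (h2.trans h4)
      _ ≤ _ := by gcongr

end Pool.Agent.MP_5499e5_ag.W
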